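import Mathlib
import Pool.Agent.H958.RL.Stm2

/-!
# Project RL: PERM, few orders put every point below every small set
-/

set_option autoImplicit false

namespace Pool.Agent.H59.RL.Perm

open Finset
open scoped Classical

/-- Permutations with `y` minimal on `S`. -/
noncomputable def Am {n : ℕ} (S : Finset (Fin n)) (y : Fin n) : Finset (Equiv.Perm (Fin n)) :=
  univ.filter (fun σ => ∀ u ∈ S, σ y ≤ σ u)

theorem Am_card {n : ℕ} (S : Finset (Fin n)) (y z : Fin n) (hy : y ∈ S) (hz : z ∈ S) :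
    (Am S z).card ≤ (Am S y).card := by
  apply Finset.card_le_card_of_injOn (fun σ => σ * Equiv.swap y z)
  · intro σ hσ
    simp only [Am, coe_filter, mem_univ, true_and, Set.mem_ofPred_eq] at hσ ⊢
    intro u hu
    simp only [Equiv.Perm.coe_mul, Function.comp_apply, Equiv.swap_apply_left]
    apply hσ
    by_cases h1 : u = y
    · subst h1; simpa using hz
    · by_cases h2 : u = z
      · subst h2; simpa using hy
      · rw [Equiv.swap_apply_of_ne_of_ne h1 h2]; exact hu
  · intro σ _ τ _ h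
    exact mul_right_cancel h

theorem fact_le {n : ℕ} (S : Finset (Fin n)) (y : Fin n) (hy : y ∈ S) :
    n.factorial ≤ S.card * (Am S y).card := by
  have h1 : (univ : Finset (Equiv.Perm (Fin n))) ⊆ S.biUnion (fun z => Am S z) := by
    intro σ _
    obtain ⟨z, hz, hm⟩ := Finset.exists_min_image S (fun u => σ u) ⟨y, hy⟩
    rw [mem_biUnion]
    refine ⟨z, hz, ?_⟩
    simp only [Am, mem_filter, mem_univ, true_and]
    exact hm
  calc n.factorial = (univ : Finset (Equiv.Perm (Fin n))).card := by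
        rw [Finset.card_univ, Fintype.card_perm, Fintype.card_fin]
    _ ≤ (S.biUnion (fun z => Am S z)).card := Finset.card_le_card h1
    _ ≤ ∑ z ∈ S, (Am S z).card := Finset.card_biUnion_le
    _ ≤ ∑ z ∈ S, (Am S y).card := Finset.sum_le_sum (fun z hz => Am_card S y z hy hz)
    _ = S.card * (Am S y).card := by rw [Finset.sum_const, smul_eq_mul]

section
variable {m s : ℕ}

/-- good orders for a pair -/
def Gd (q : Fin m × (Fin s → Fin m)) (σ : Fin m → ℕ) : Prop :=
  ∀ j, σ q.1 < σ (q.2 j)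

theorem good_count (q : Fin m × (Fin s → Fin m)) (hq : ∀ j, q.2 j ≠ q.1) :
    m.factorial ≤ (s + 1) * (univ.filter (fun σ : Equiv.Perm (Fin m) =>
      Gd q (fun x => (σ x : ℕ)))).card := by
  have h := fact_le (insert q.1 (univ.image q.2)) q.1 (mem_insert_self _ _)
  have h2 : (insert q.1 (univ.image q.2)).card ≤ s + 1 := by
    refine (Finset.card_insert_le _ _).trans ?_
    have h3 := Finset.card_image_le (s := (univ : Finset (Fin s))) (f := q.2)
    rw [Finset.card_univ, Fintype.card_fin] at h3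
    omega
  refine h.trans (Nat.mul_le_mul h2 (Finset.card_le_card ?_))
  intro σ hσ
  simp only [Am, mem_filter, mem_univ, true_and] at hσ ⊢
  intro j
  have h3 : σ q.1 ≤ σ (q.2 j) := hσ _ (mem_insert_of_mem (mem_image_of_mem _ (mem_univ j)))
  have h4 : σ q.1 < σ (q.2 j) := by
    refine lt_of_le_of_ne h3 fun he => ?_
    exact hq j (σ.injective he).symm
  exact h4

theorem exists_perm (P : Finset (Fin m × (Fin s → Fin m))) (hP : ∀ q ∈ P, ∀ j, q.2 j ≠ q.1) :
    ∃ σ : Equiv.Perm (Fin m), P.card ≤ (s + 1) *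
      (P.filter (fun q => Gd q (fun x => (σ x : ℕ)))).card := by
  by_contra hcon
  push Not at hcon
  have h1 : (s + 1) * ∑ σ : Equiv.Perm (Fin m), (P.filter (fun q => Gd q (fun x => (σ x : ℕ)))).card <
      m.factorial * P.card := by
    rw [Finset.mul_sum]
    calc ∑ σ : Equiv.Perm (Fin m), (s + 1) * (P.filter (fun q => Gd q (fun x => (σ x : ℕ)))).card
        < ∑ σ : Equiv.Perm (Fin m), P.card :=
          Finset.sum_lt_sum_of_nonempty univ_nonempty (fun σ _ => hcon σ)
      _ = m.factorial * P.card := by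
          rw [Finset.sum_const, smul_eq_mul, Finset.card_univ, Fintype.card_perm,
            Fintype.card_fin]
  have h2 : ∑ σ : Equiv.Perm (Fin m), (P.filter (fun q => Gd q (fun x => (σ x : ℕ)))).card =
      ∑ q ∈ P, (univ.filter (fun σ : Equiv.Perm (Fin m) => Gd q (fun x => (σ x : ℕ)))).card := by
    simp only [Finset.card_filter]
    rw [Finset.sum_comm]
  rw [h2, Finset.mul_sum] at h1
  have h3 : ∑ q ∈ P, m.factorial ≤ ∑ q ∈ P, (s + 1) *
      (univ.filter (fun σ : Equiv.Perm (Fin m) => Gd q (fun x => (σ x : ℕ)))).card :=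
    Finset.sum_le_sum (fun q hq => good_count q (hP q hq))
  rw [Finset.sum_const, smul_eq_mul] at h3
  rw [mul_comm] at h1
  have : m.factorial * P.card = P.card * m.factorial := mul_comm _ _
  omega

theorem iterate (P : Finset (Fin m × (Fin s → Fin m))) (hP : ∀ q ∈ P, ∀ j, q.2 j ≠ q.1) (k : ℕ) :
    ∃ f : Fin k → Fin m → ℕ, (∀ i, Function.Injective (f i)) ∧
      ((P.filter (fun q => ∀ i, ¬ Gd q (f i))).card : ℝ) ≤ (P.card : ℝ) * (1 - 1 / ((s : ℝ) + 1)) ^ k := by
  induction k with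
  | zero =>
    refine ⟨fun i => i.elim0, fun i => i.elim0, ?_⟩
    rw [pow_zero, mul_one]
    exact_mod_cast Finset.card_filter_le _ _
  | succ k ih =>
    obtain ⟨f, hf, hc⟩ := ih
    set R := P.filter (fun q => ∀ i, ¬ Gd q (f i)) with hR
    obtain ⟨σ, hgc⟩ := exists_perm R (fun q hq => by
      rw [hR, mem_filter] at hq; exact hP q hq.1)
    refine ⟨Fin.cons (fun x => (σ x : ℕ)) f, ?_, ?_⟩
    · intro i
      refine Fin.cases ?_ ?_ i
      · rw [Fin.cons_zero]
        exact Fin.val_injective.comp σ.injective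
      · intro j
        rw [Fin.cons_succ]
        exact hf j
    · have hsub : (P.filter (fun q => ∀ i : Fin (k + 1),
          ¬ Gd q ((Fin.cons (fun x => (σ x : ℕ)) f : Fin (k + 1) → Fin m → ℕ) i))) =
          R.filter (fun q => ¬ Gd q (fun x => (σ x : ℕ))) := by
        ext q
        simp only [hR, mem_filter, Fin.forall_fin_succ, Fin.cons_zero, Fin.cons_succ]
        tauto
      rw [hsub]
      have h1 : (R.filter (fun q => Gd q (fun x => (σ x : ℕ)))).card +
          (R.filter (fun q => ¬ Gd q (fun x => (σ x : ℕ)))).card = R.card :=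
        Finset.card_filter_add_card_filter_not _
      have h1' : ((R.filter (fun q => Gd q (fun x => (σ x : ℕ)))).card : ℝ) +
          ((R.filter (fun q => ¬ Gd q (fun x => (σ x : ℕ)))).card : ℝ) = (R.card : ℝ) := by
        exact_mod_cast h1
      have h2 : (R.card : ℝ) ≤ ((s : ℝ) + 1) *
          ((R.filter (fun q => Gd q (fun x => (σ x : ℕ)))).card : ℝ) := by
        exact_mod_cast hgc
      have hK1 : (0 : ℝ) < (s : ℝ) + 1 := by positivity
      have h3 : (R.card : ℝ) / ((s : ℝ) + 1) ≤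
          ((R.filter (fun q => Gd q (fun x => (σ x : ℕ)))).card : ℝ) := by
        rw [div_le_iff₀ hK1]; linarith
      have h4 : ((R.filter (fun q => ¬ Gd q (fun x => (σ x : ℕ)))).card : ℝ) ≤
          (R.card : ℝ) * (1 - 1 / ((s : ℝ) + 1)) := by
        rw [mul_sub, mul_one, mul_one_div]; linarith
      refine h4.trans ?_
      have h5 : (0 : ℝ) ≤ 1 - 1 / ((s : ℝ) + 1) := by
        rw [sub_nonneg, div_le_one hK1]
        have : (0 : ℝ) ≤ s := by positivity
        linarith
      calc (R.card : ℝ) * (1 - 1 / ((s : ℝ) + 1))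
          ≤ ((P.card : ℝ) * (1 - 1 / ((s : ℝ) + 1)) ^ k) * (1 - 1 / ((s : ℝ) + 1)) :=
            mul_le_mul_of_nonneg_right hc h5
        _ = (P.card : ℝ) * (1 - 1 / ((s : ℝ) + 1)) ^ (k + 1) := by
            rw [mul_assoc, pow_succ]

theorem small (m s t : ℕ) (ht : (s + 1) ^ 2 * (Nat.clog 2 m + 1) ≤ t) (hm : 0 < m) :
    (m : ℝ) ^ (s + 1) * (1 - 1 / ((s : ℝ) + 1)) ^ t < 1 := by
  have hK1 : (0 : ℝ) < (s : ℝ) + 1 := by positivity
  have h0 : (0 : ℝ) ≤ 1 - 1 / ((s : ℝ) + 1) := by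
    rw [sub_nonneg, div_le_one hK1]
    have : (0 : ℝ) ≤ s := by positivity
    linarith
  have h1 : (1 - 1 / ((s : ℝ) + 1)) ≤ Real.exp (-(1 / ((s : ℝ) + 1))) := by
    have := Real.add_one_le_exp (-(1 / ((s : ℝ) + 1)))
    linarith
  have ht' : ((s : ℝ) + 1) ^ 2 * ((Nat.clog 2 m : ℝ) + 1) ≤ t := by exact_mod_cast ht
  have h2 : (m : ℝ) < Real.exp ((Nat.clog 2 m : ℝ) + 1) := by
    have h3 : (m : ℝ) ≤ 2 ^ Nat.clog 2 m := by
      exact_mod_cast Nat.le_pow_clog (by norm_num) m
    have h4 : (2 : ℝ) ^ Nat.clog 2 m ≤ Real.exp (Nat.clog 2 m : ℝ) := by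
      have h5 : (2 : ℝ) ≤ Real.exp 1 := by
        have := Real.add_one_le_exp (1 : ℝ)
        linarith
      calc (2 : ℝ) ^ Nat.clog 2 m ≤ Real.exp 1 ^ Nat.clog 2 m := pow_le_pow_left₀ (by norm_num) h5 _
        _ = Real.exp (Nat.clog 2 m : ℝ) := by rw [← Real.exp_nat_mul, mul_one]
    have h6 : Real.exp (Nat.clog 2 m : ℝ) < Real.exp ((Nat.clog 2 m : ℝ) + 1) :=
      Real.exp_lt_exp.2 (by linarith)
    linarith
  have h7 : (1 - 1 / ((s : ℝ) + 1)) ^ t ≤ Real.exp (-((Nat.clog 2 m : ℝ) + 1)) ^ (s + 1) := by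
    calc (1 - 1 / ((s : ℝ) + 1)) ^ t ≤ Real.exp (-(1 / ((s : ℝ) + 1))) ^ t :=
          pow_le_pow_left₀ h0 h1 t
      _ = Real.exp (-(t / ((s : ℝ) + 1))) := by
          rw [← Real.exp_nat_mul]
          congr 1
          ring
      _ ≤ Real.exp (-(((s : ℝ) + 1) * ((Nat.clog 2 m : ℝ) + 1))) := by
          apply Real.exp_le_exp.2
          rw [neg_le_neg_iff, le_div_iff₀ hK1]
          nlinarith
      _ = Real.exp (-((Nat.clog 2 m : ℝ) + 1)) ^ (s + 1) := by
          rw [← Real.exp_nat_mul]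
          congr 1
          push_cast
          ring
  have h8 : (m : ℝ) * Real.exp (-((Nat.clog 2 m : ℝ) + 1)) < 1 := by
    rw [Real.exp_neg, ← div_eq_mul_inv, div_lt_one (Real.exp_pos _)]
    exact h2
  have h9 : (0 : ℝ) ≤ (m : ℝ) * Real.exp (-((Nat.clog 2 m : ℝ) + 1)) := by positivity
  calc (m : ℝ) ^ (s + 1) * (1 - 1 / ((s : ℝ) + 1)) ^ t
      ≤ (m : ℝ) ^ (s + 1) * Real.exp (-((Nat.clog 2 m : ℝ) + 1)) ^ (s + 1) :=
        mul_le_mul_of_nonneg_left h7 (by positivity)
    _ = ((m : ℝ) * Real.exp (-((Nat.clog 2 m : ℝ) + 1))) ^ (s + 1) := by rw [mul_pow]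
    _ < 1 := pow_lt_one₀ h9 h8 (Nat.succ_ne_zero s)

end

theorem main : Pool.Agent.H958.RL.S_PERM := by
  intro m s t ht
  set P : Finset (Fin m × (Fin s → Fin m)) := univ.filter (fun q => ∀ j, q.2 j ≠ q.1) with hPd
  obtain ⟨f, hf, hc⟩ := iterate P (fun q hq => by rw [hPd, mem_filter] at hq; exact hq.2) t
  refine ⟨f, hf, fun a H hH ha => ?_⟩
  have hm : 0 < m := a.pos
  have ht0 : 0 < t := lt_of_lt_of_le (by positivity) ht
  rcases H.eq_empty_or_nonempty with hE | ⟨b0, hb0⟩
  · subst hE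
    exact ⟨⟨0, ht0⟩, fun b hb => absurd hb (Finset.notMem_empty b)⟩
  · have hPc : (P.card : ℝ) ≤ (m : ℝ) ^ (s + 1) := by
      have h1 : P.card ≤ m ^ (s + 1) := by
        refine (Finset.card_le_univ _).trans (le_of_eq ?_)
        rw [Fintype.card_prod, Fintype.card_fun, Fintype.card_fin, Fintype.card_fin, pow_succ, mul_comm]
      exact_mod_cast h1
    have h0 : (0 : ℝ) ≤ 1 - 1 / ((s : ℝ) + 1) := by
      have hK1 : (0 : ℝ) < (s : ℝ) + 1 := by positivity
      rw [sub_nonneg, div_le_one hK1]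
      have : (0 : ℝ) ≤ s := by positivity
      linarith
    have h2 : ((P.filter (fun q => ∀ i, ¬ Gd q (f i))).card : ℝ) < 1 :=
      (hc.trans (mul_le_mul_of_nonneg_right hPc (pow_nonneg h0 t))).trans_lt (small m s t ht hm)
    have h3 : (P.filter (fun q => ∀ i, ¬ Gd q (f i))).card = 0 := by
      have : (P.filter (fun q => ∀ i, ¬ Gd q (f i))).card < 1 := by exact_mod_cast h2
      omega
    rw [Finset.card_eq_zero, Finset.filter_eq_empty_iff] at h3
    -- an enumeration of `H`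
    obtain ⟨e⟩ : Nonempty (Fin H.card ≃ H) := ⟨H.equivFin.symm⟩
    have hpos : 0 < H.card := Finset.card_pos.2 ⟨b0, hb0⟩
    let g : Fin s → Fin m := fun j => if h : (j : ℕ) < H.card then (e ⟨j, h⟩ : Fin m) else b0
    have hg : ∀ j, g j ∈ H := fun j => by
      simp only [g]
      split_ifs with h
      · exact (e ⟨j, h⟩).2
      · exact hb0
    have hg2 : ∀ b ∈ H, ∃ j, g j = b := fun b hb => by
      have h5 : ((e.symm ⟨b, hb⟩ : Fin H.card) : ℕ) < H.card := (e.symm ⟨b, hb⟩).2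
      refine ⟨⟨(e.symm ⟨b, hb⟩ : Fin H.card), lt_of_lt_of_le h5 hH⟩, ?_⟩
      simp only [g]
      rw [dif_pos h5]
      simp
    have hq : (a, g) ∈ P := by
      rw [hPd, mem_filter]
      refine ⟨mem_univ _, fun j h => ?_⟩
      have h5 : g j = a := h
      exact ha (h5 ▸ hg j)
    have h6 := h3 hq
    push Not at h6
    obtain ⟨i, hi⟩ := h6
    refine ⟨i, fun b hb => ?_⟩
    obtain ⟨j, hj⟩ := hg2 b hb
    rw [← hj]
    exact hi j

end Pool.Agent.H59.RL.Perm

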